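import Pool.Agent.Helper35.MS.StF

/-!
# POT: consequences of POI (Cauchy-Schwarz)
-/

set_option autoImplicit false

namespace Helper37.MS

open Helper35.MS Helper35.PI Helper35.PI2 Helper32.CL
open scoped ContDiff Manifold Topology ENNReal BigOperators
open MeasureTheory Set Filter

/-- the elementary inequality for the square root -/
theorem sqrt_lip (y l k : ℝ) (hk : 0 < k) :
    Real.sqrt (y ^ 2 + k ^ 2) - k ≤ l ^ 2 / (2 * k) + |y - l| := by
  have h0 : 0 ≤ l ^ 2 / (2 * k) := by positivity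
  have h1 : Real.sqrt (l ^ 2 + k ^ 2) ≤ l ^ 2 / (2 * k) + k := by
    apply Real.sqrt_le_iff.2
    refine ⟨by positivity, ?_⟩
    have h2 : (l ^ 2 / (2 * k) + k) ^ 2 = l ^ 2 + k ^ 2 + (l ^ 2 / (2 * k)) ^ 2 := by
      field_simp
      ring
    rw [h2]
    have := sq_nonneg (l ^ 2 / (2 * k))
    linarith
  have h3 : Real.sqrt (y ^ 2 + k ^ 2) ≤ Real.sqrt (l ^ 2 + k ^ 2) + |y - l| := by
    apply Real.sqrt_le_iff.2
    refine ⟨by positivity, ?_⟩
    have h4 : |l| ≤ Real.sqrt (l ^ 2 + k ^ 2) := by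
      apply Real.le_sqrt_of_sq_le
      rw [sq_abs]
      have := sq_nonneg k
      linarith
    have h5 : Real.sqrt (l ^ 2 + k ^ 2) ^ 2 = l ^ 2 + k ^ 2 := Real.sq_sqrt (by positivity)
    have h6 : |y - l| ^ 2 = (y - l) ^ 2 := sq_abs _
    have h7 : l * (y - l) ≤ |l| * |y - l| := by
      rw [← abs_mul]
      exact le_abs_self _
    have h8 : |l| * |y - l| ≤ Real.sqrt (l ^ 2 + k ^ 2) * |y - l| :=
      mul_le_mul_of_nonneg_right h4 (abs_nonneg _)
    nlinarith
  linarith

/-- a function continuous on `M × J` is continuous at a fixed time -/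
theorem csj_cont {M : Type} [TopologicalSpace M] {V : Type} [TopologicalSpace V] {J : Set ℝ}
    {g : M → ℝ → V} (h : CSTJ J g) {t : ℝ} (ht : t ∈ J) : Continuous fun q => g q t := by
  unfold CSTJ at h
  have h2 : Continuous fun q : M => ((q, t) : M × ℝ) := by fun_prop
  have h3 : ∀ q : M, ((q, t) : M × ℝ) ∈ (univ : Set M) ×ˢ J := fun q => ⟨trivial, ht⟩
  exact h.comp_continuous h2 h3

theorem hPOT (hPOI : StPOI) (hMUJ : StMUJ) (hI4J : StI4J) (_hENE : StENE) : StPOT := by
  intro N M _ _ _ _ _ _ _ _ _ J F c χ δ hF hpin t ht hW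
  obtain ⟨s, -, hs⟩ := hMUJ 2 N M J F c χ hF.toJ
  obtain ⟨hfin, -, hint⟩ := hs t ht
  set μ := muM 2 F c χ t with hμ
  have : IsFiniteMeasure μ := ⟨hfin⟩
  have hcH : Continuous fun q => HH (n := 2) F q t := by
    exact csj_cont (hI4J 2 N M J F hF.mcf.toIsImmJ).2.1 ht
  have hcY : Continuous fun q => YF F q t := hcH.norm.pow 2
  have hI : ∀ g : M → ℝ, Continuous g → Integrable g μ := fun g hg => (hint g hg).1
  set A : ℝ := arI F c χ t with hA
  set W : ℝ := wI F c χ t with hWd
  have hAμ : A = μ.real univ := rfl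
  have hWμ : W = ∫ q, YF F q t ∂μ := rfl
  have hpi := Real.pi_pos
  have hA0 : 0 < A := by
    rw [hAμ]
    rcases (measureReal_nonneg (μ := μ) (s := univ)).lt_or_eq with h | h
    · exact h
    · exfalso
      have h1 : μ univ = 0 := by
        rw [measureReal_def, eq_comm, ENNReal.toReal_eq_zero_iff] at h
        exact h.resolve_right (measure_ne_top μ univ)
      have h2 : μ = 0 := Measure.measure_univ_eq_zero.1 h1
      rw [hWμ, h2, integral_zero_measure] at hW
      linarith
  refine ⟨hA0, ?_, ?_⟩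
  · set wb : ℝ := Real.sqrt (16 * Real.pi / A) with hwb
    have hwb2 : wb ^ 2 = 16 * Real.pi / A := Real.sq_sqrt (by positivity)
    have hwb0 : 0 ≤ wb := Real.sqrt_nonneg _
    set f : M → ℝ := fun q => |‖HH (n := 2) F q t‖ - wb| with hf
    set g : M → ℝ := fun q => ‖HH (n := 2) F q t‖ + wb with hg
    have hcf : Continuous f := (hcH.norm.sub continuous_const).abs
    have hcg : Continuous g := hcH.norm.add continuous_const
    have hfg : ∀ q, |YF F q t - 16 * Real.pi / A| = f q * g q := by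
      intro q
      have h1 : YF F q t - 16 * Real.pi / A =
          (‖HH (n := 2) F q t‖ - wb) * (‖HH (n := 2) F q t‖ + wb) := by
        rw [← hwb2, YF]
        ring
      have h2 : 0 ≤ ‖HH (n := 2) F q t‖ + wb := by positivity
      rw [h1, abs_mul, abs_of_nonneg h2]
    have hR : ∫ q, |YF F q t - 16 * Real.pi / A| ∂μ = ∫ q, f q * g q ∂μ :=
      integral_congr_ae (ae_of_all _ hfg)
    rw [hR]
    have hP := hPOI N M J F c χ δ hF hpin t ht
    have hP' : ∫ q, f q ^ 2 ∂μ ≤ W - 16 * Real.pi + 5 * Real.sqrt (W * A * dI F c χ t) := by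
      have h1 : ∫ q, f q ^ 2 ∂μ =
          ∫ q, (‖HH (n := 2) F q t‖ - Real.sqrt (16 * Real.pi / arI F c χ t)) ^ 2 ∂μ := by
        refine integral_congr_ae (ae_of_all _ fun q => ?_)
        simp only [hf]
        rw [sq_abs]
      rw [h1]
      exact hP
    have hQ' : ∫ q, g q ^ 2 ∂μ ≤ 2 * W + 32 * Real.pi := by
      have h1 : ∫ q, g q ^ 2 ∂μ ≤ ∫ q, (2 * YF F q t + 2 * wb ^ 2) ∂μ := by
        refine integral_mono (hI _ (hcg.pow 2))
          (hI _ ((continuous_const.mul hcY).add continuous_const)) fun q => ?_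
        simp only [hg, YF]
        nlinarith [sq_nonneg (‖HH (n := 2) F q t‖ - wb)]
      refine h1.trans (le_of_eq ?_)
      have i1 : Integrable (fun q => 2 * YF F q t) μ := hI _ (continuous_const.mul hcY)
      have i2 : Integrable (fun _ : M => 2 * wb ^ 2) μ := hI _ continuous_const
      rw [integral_add i1 i2, integral_const_mul, integral_const, smul_eq_mul, ← hWμ, ← hAμ, hwb2]
      field_simp
      ring
    have hQ0 : 0 < ∫ q, g q ^ 2 ∂μ := by
      have h1 : ∫ _q : M, wb ^ 2 ∂μ ≤ ∫ q, g q ^ 2 ∂μ := by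
        refine integral_mono (hI _ continuous_const) (hI _ (hcg.pow 2)) fun q => ?_
        simp only [hg]
        have := norm_nonneg (HH (n := 2) F q t)
        nlinarith
      rw [integral_const, smul_eq_mul, ← hAμ, hwb2] at h1
      have h2 : 0 < A * (16 * Real.pi / A) := by positivity
      linarith
    have hCS : (∫ q, f q * g q ∂μ) ^ 2 ≤ (∫ q, f q ^ 2 ∂μ) * ∫ q, g q ^ 2 ∂μ := by
      set P := ∫ q, f q ^ 2 ∂μ
      set Q := ∫ q, g q ^ 2 ∂μ with hQd
      set R := ∫ q, f q * g q ∂μ
      have h1 : 0 ≤ ∫ q, (f q - R / Q * g q) ^ 2 ∂μ := integral_nonneg fun q => sq_nonneg _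
      have h2 : ∫ q, (f q - R / Q * g q) ^ 2 ∂μ = P - 2 * (R / Q) * R + (R / Q) ^ 2 * Q := by
        have h3 : (fun q => (f q - R / Q * g q) ^ 2) =
            fun q => f q ^ 2 - 2 * (R / Q) * (f q * g q) + (R / Q) ^ 2 * g q ^ 2 := by
          funext q
          ring
        rw [h3, integral_add, integral_sub, integral_const_mul, integral_const_mul]
        · exact hI _ (hcf.pow 2)
        · exact hI _ (continuous_const.mul (hcf.mul hcg))
        · exact hI _ ((hcf.pow 2).sub (continuous_const.mul (hcf.mul hcg)))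
        · exact hI _ (continuous_const.mul (hcg.pow 2))
      rw [h2] at h1
      have h4 : P - 2 * (R / Q) * R + (R / Q) ^ 2 * Q = P - R ^ 2 / Q := by
        field_simp
        ring
      rw [h4, sub_nonneg, div_le_iff₀ hQ0] at h1
      exact h1
    apply Real.le_sqrt_of_sq_le
    refine hCS.trans (mul_le_mul hP' hQ' hQ0.le ?_)
    exact (integral_nonneg fun q => sq_nonneg (f q)).trans hP'
  · intro k hk
    set l : ℝ := 16 * Real.pi / A with hl
    have hcz : Continuous fun q => Real.sqrt (YF F q t ^ 2 + k ^ 2) - k :=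
      (((hcY.pow 2).add continuous_const).sqrt).sub continuous_const
    have hca : Continuous fun q => |YF F q t - l| := (hcY.sub continuous_const).abs
    have h1 : zI k F c χ t ≤ ∫ q, (l ^ 2 / (2 * k) + |YF F q t - l|) ∂μ :=
      integral_mono (hI _ hcz) (hI _ (continuous_const.add hca)) fun q => sqrt_lip _ _ _ hk
    refine h1.trans (le_of_eq ?_)
    have i1 : Integrable (fun _ : M => l ^ 2 / (2 * k)) μ := hI _ continuous_const
    have i2 : Integrable (fun q => |YF F q t - l|) μ := hI _ hca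
    rw [integral_add i1 i2, integral_const, smul_eq_mul, ← hAμ]
    congr 1
    rw [hl]
    field_simp
    ring

end Helper37.MS
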